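import Pool.Agent.W780.BB.Stm

/-! Project BB (helper780), part S_Dir (helper803): a set invariant under free motion and small
transversal translations depends only on the direction. -/

set_option autoImplicit false

namespace Pool.Agent.W803.BBD

open Complex Set MeasureTheory Filter Topology Pool.Agent.W780.PG Pool.Agent.W780.BB

open scoped Real ComplexConjugate

theorem norm_dir (θ : ℝ) : ‖dir θ‖ = 1 := by
  unfold dir; exact norm_exp_ofReal_mul_I θ

theorem conj_dir_mul (θ : ℝ) : conj (dir θ) * dir θ = 1 := by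
  rw [mul_comm, mul_conj, normSq_eq_norm_sq, norm_dir]; simp

theorem continuous_dir : Continuous dir := by
  unfold dir; fun_prop

/-- transversal coordinate -/
noncomputable def yc (θ : ℝ) (z : ℂ) : ℝ := (conj (dir θ) * z).im

/-- longitudinal coordinate -/
noncomputable def xc (θ : ℝ) (z : ℂ) : ℝ := (conj (dir θ) * z).re

theorem decomp (θ : ℝ) (z : ℂ) : z = xc θ z • dir θ + yc θ z • (I * dir θ) := by
  have h2 : z = dir θ * (conj (dir θ) * z) := by
    rw [← mul_assoc, mul_comm (dir θ), conj_dir_mul, one_mul]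
  conv_lhs => rw [h2, ← re_add_im (conj (dir θ) * z)]
  simp only [xc, yc, real_smul]
  ring

theorem yc_sub (θ : ℝ) (z w : ℂ) : yc θ (z - w) = yc θ z - yc θ w := by
  simp [yc, mul_sub]

theorem xc_sub (θ : ℝ) (z w : ℂ) : xc θ (z - w) = xc θ z - xc θ w := by
  simp [xc, mul_sub]

theorem abs_yc_le (θ : ℝ) (z : ℂ) : |yc θ z| ≤ ‖z‖ := by
  unfold yc
  refine (abs_im_le_norm _).trans ?_
  rw [norm_mul, RCLike.norm_conj, norm_dir, one_mul]

theorem yc_smul (θ δ : ℝ) : yc θ (δ • (I * dir θ)) = δ := by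
  unfold yc
  have : conj (dir θ) * (δ • (I * dir θ)) = δ * I := by
    rw [real_smul]
    calc conj (dir θ) * ((δ : ℂ) * (I * dir θ)) = δ * I * (conj (dir θ) * dir θ) := by ring
      _ = δ * I := by rw [conj_dir_mul, mul_one]
  rw [this]; simp

/-- the interior points at distance more than `2 η` from the complement -/
def OO (Ω : Set ℂ) (η : ℝ) : Set ℂ := {z | ENNReal.ofReal (2 * η) < Metric.infEDist z Ωᶜ}

theorem isOpen_OO (Ω : Set ℂ) (η : ℝ) : IsOpen (OO Ω η) :=
  isOpen_lt continuous_const Metric.continuous_infEDist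

theorem OO_sub {Ω : Set ℂ} {η : ℝ} (hη : 0 ≤ η) {z : ℂ} (hz : z ∈ OO Ω η) :
    Metric.closedBall z (2 * η) ⊆ Ω := by
  intro w hw
  by_contra hn
  have h1 : Metric.infEDist z Ωᶜ ≤ edist z w := Metric.infEDist_le_edist_of_mem hn
  have h2 : edist z w ≤ ENNReal.ofReal (2 * η) := by
    rw [edist_dist]
    apply ENNReal.ofReal_le_ofReal
    rw [dist_comm]; exact hw
  exact absurd hz (not_lt.2 (h1.trans h2))

theorem mem_OO {Ω : Set ℂ} {η ρ : ℝ} (hη : 0 < η) {z0 z : ℂ} (h : Metric.ball z0 ρ ⊆ Ω)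
    (hρ : 4 * η < ρ) (hz : dist z z0 < η) : z ∈ OO Ω η := by
  unfold OO
  have h1 : ENNReal.ofReal (3 * η) ≤ Metric.infEDist z Ωᶜ := by
    rw [Metric.le_infEDist]
    intro w hw
    rw [edist_dist]
    apply ENNReal.ofReal_le_ofReal
    by_contra hn
    push Not at hn
    apply hw
    apply h
    rw [Metric.mem_ball]
    calc dist w z0 ≤ dist w z + dist z z0 := dist_triangle _ _ _
      _ = dist z w + dist z z0 := by rw [dist_comm w z]
      _ < ρ := by linarith
  refine lt_of_lt_of_le ?_ h1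
  apply (ENNReal.ofReal_lt_ofReal_iff (by positivity)).2
  linarith

/-- the transversal coordinate pulls back null sets to null sets -/
theorem ae_yc (θ c : ℝ) (P : ℝ → Prop) (h : ∀ᵐ δ : ℝ, P δ) : ∀ᵐ w : ℂ, P (yc θ w - c) := by
  have h1 : Measure.QuasiMeasurePreserving (fun t : ℝ => t - c) :=
    (measurePreserving_sub_right volume c).quasiMeasurePreserving
  have h2 : Measure.QuasiMeasurePreserving (Prod.snd : ℝ × ℝ → ℝ) :=
    Measure.quasiMeasurePreserving_snd
  have h3 : Measure.QuasiMeasurePreserving Complex.measurableEquivRealProd :=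
    Complex.volume_preserving_equiv_real_prod.quasiMeasurePreserving
  obtain ⟨a, ha⟩ : ∃ a : Circle, (a : ℂ) = conj (dir θ) :=
    ⟨⟨conj (dir θ), mem_sphere_zero_iff_norm.2 (by rw [RCLike.norm_conj, norm_dir])⟩, rfl⟩
  have h4 : Measure.QuasiMeasurePreserving (rotation a) :=
    (rotation a).measurePreserving.quasiMeasurePreserving
  have h5 := ((h1.comp h2).comp h3).comp h4
  have h6 := h5.ae h
  filter_upwards [h6] with w hw
  have h7 : ((((fun t : ℝ => t - c) ∘ Prod.snd) ∘ Complex.measurableEquivRealProd) ∘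
      (rotation a)) w = yc θ w - c := by
    simp only [Function.comp_apply, rotation_apply, ha, yc]
    rfl
  rw [h7] at hw
  exact hw

theorem local_const (Ω A : Set ℂ) (θ : ℝ) (hΩ : IsOpen Ω)
    (hfree : ∀ z (s : ℝ), z ∈ Ω → z + s • dir θ ∈ Ω → (z ∈ A ↔ z + s • dir θ ∈ A))
    (hG : ∀ k : ℕ, ∀ᵐ z : ℂ, ∀ᵐ δ : ℝ, z ∈ OO Ω (1 / ((k : ℝ) + 1)) →
      0 < δ → δ < 1 / ((k : ℝ) + 1) → (z ∈ A ↔ z + δ • (I * dir θ) ∈ A))
    (z0 : ℂ) (hz0 : z0 ∈ Ω) :
    ∃ r > 0, Metric.ball z0 r ⊆ Ω ∧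
      ((∀ᵐ w : ℂ, w ∈ Metric.ball z0 r → w ∈ A) ∨
       (∀ᵐ w : ℂ, w ∈ Metric.ball z0 r → w ∉ A)) := by
  obtain ⟨ρ, hρ, hball⟩ := Metric.isOpen_iff.1 hΩ z0 hz0
  obtain ⟨k, hk⟩ := exists_nat_one_div_lt (show (0 : ℝ) < ρ / 4 by positivity)
  set η : ℝ := 1 / ((k : ℝ) + 1) with hη
  have hη0 : 0 < η := by rw [hη]; positivity
  have h4η : 4 * η < ρ := by linarith
  -- choose a good point
  set zc : ℂ := z0 - (η / 2) • (I * dir θ) with hzc
  obtain ⟨zs, hzs, hgood⟩ : ∃ zs ∈ Metric.ball zc (η / 4), ∀ᵐ δ : ℝ, zs ∈ OO Ω η →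
      0 < δ → δ < η → (zs ∈ A ↔ zs + δ • (I * dir θ) ∈ A) := by
    by_contra hcon
    have h1 := hG k
    have h2 : volume (Metric.ball zc (η / 4)) = 0 := by
      refine measure_mono_null ?_ h1
      intro z hz hgood
      exact hcon ⟨z, hz, hgood⟩
    have h3 : 0 < volume (Metric.ball zc (η / 4)) :=
      Metric.measure_ball_pos _ _ (by positivity)
    exact h3.ne' h2
  have hnn : ‖(η / 2) • (I * dir θ)‖ = η / 2 := by
    rw [norm_smul, norm_mul, norm_I, norm_dir, Real.norm_eq_abs, abs_of_pos (by positivity)]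
    ring
  have hzs0 : dist zs z0 < η := by
    have h1 : dist zs zc < η / 4 := hzs
    have h2 : dist zc z0 = η / 2 := by
      rw [hzc, dist_eq_norm, sub_sub_cancel_left, norm_neg, hnn]
    linarith [dist_triangle zs zc z0]
  have hzsO : zs ∈ OO Ω η := mem_OO hη0 hball h4η hzs0
  refine ⟨η / 4, by positivity, ?_, ?_⟩
  · exact (Metric.ball_subset_ball (by linarith)).trans hball
  -- points of the small ball
  have key : ∀ᵐ w : ℂ, w ∈ Metric.ball z0 (η / 4) → (w ∈ A ↔ zs ∈ A) := by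
    have h1 := ae_yc θ (yc θ zs) _ hgood
    filter_upwards [h1] with w hw hwb
    have h2 : |yc θ (w - z0)| < η / 4 := by
      refine (abs_yc_le _ _).trans_lt ?_
      rw [← dist_eq_norm]; exact hwb
    have h3 : |yc θ (zs - zc)| < η / 4 := by
      refine (abs_yc_le _ _).trans_lt ?_
      rw [← dist_eq_norm]; exact hzs
    have h4 : yc θ zc = yc θ z0 - η / 2 := by
      rw [hzc, yc_sub, yc_smul]
    rw [yc_sub] at h2 h3
    rw [h4] at h3
    rw [abs_lt] at h2 h3
    have h5 := hw hzsO (by linarith) (by linarith)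
    set δ : ℝ := yc θ w - yc θ zs with hδ
    have hδ0 : 0 < δ := by rw [hδ]; linarith
    have hδη : δ < η := by rw [hδ]; linarith
    rw [h5]
    -- w = zs + δ n + s e
    have h6 : w = (zs + δ • (I * dir θ)) + xc θ (w - zs) • dir θ := by
      have := decomp θ (w - zs)
      rw [yc_sub, ← hδ] at this
      have h7 : w = zs + (w - zs) := by ring
      conv_lhs => rw [h7, this]
      ring
    have h8 : zs + δ • (I * dir θ) ∈ Ω := by
      apply OO_sub hη0.le hzsO
      rw [Metric.mem_closedBall, dist_eq_norm, add_sub_cancel_left, norm_smul, norm_mul, norm_I,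
        norm_dir, Real.norm_eq_abs, abs_of_pos hδ0]
      linarith
    have h9 : w ∈ Ω := hball (Metric.ball_subset_ball (by linarith) hwb)
    have h10 := hfree _ (xc θ (w - zs)) h8 (by rw [← h6]; exact h9)
    rw [← h6] at h10
    exact h10.symm
  by_cases hA : zs ∈ A
  · left
    filter_upwards [key] with w hw hwb
    exact (hw hwb).2 hA
  · right
    filter_upwards [key] with w hw hwb hwA
    exact hA ((hw hwb).1 hwA)

theorem global_const (Ω A : Set ℂ) (hc : IsPreconnected Ω)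
    (hloc : ∀ z0 ∈ Ω, ∃ r > 0, Metric.ball z0 r ⊆ Ω ∧
      ((∀ᵐ w : ℂ, w ∈ Metric.ball z0 r → w ∈ A) ∨
       (∀ᵐ w : ℂ, w ∈ Metric.ball z0 r → w ∉ A))) :
    volume (Ω ∩ A) = 0 ∨ volume (Ω \ A) = 0 := by
  -- the open sets
  have hop : ∀ B : Set ℂ, IsOpen {z : ℂ | ∃ r > 0, ∀ᵐ w : ℂ, w ∈ Metric.ball z r → w ∈ B} := by
    intro B
    rw [Metric.isOpen_iff]
    rintro z ⟨r, hr, h⟩
    refine ⟨r / 2, by positivity, ?_⟩
    intro z' hz'
    refine ⟨r / 2, by positivity, ?_⟩
    filter_upwards [h] with w hw hw'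
    apply hw
    rw [Metric.mem_ball] at hz' hw' ⊢
    linarith [dist_triangle w z' z]
  have hnull : ∀ B : Set ℂ, (∀ z ∈ Ω, ∃ r > 0, ∀ᵐ w : ℂ, w ∈ Metric.ball z r → w ∈ B) →
      volume (Ω \ B) = 0 := by
    intro B hB
    apply measure_null_of_locally_null
    intro z hz
    obtain ⟨r, hr, h⟩ := hB z hz.1
    refine ⟨(Ω \ B) ∩ Metric.ball z r, ?_, ?_⟩
    · exact inter_mem_nhdsWithin _ (Metric.ball_mem_nhds z hr)
    · refine measure_mono_null ?_ h
      intro w hw hw'
      exact hw.1.2 (hw' hw.2)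
  have h1 := (isPreconnected_iff_subset_of_disjoint.1 hc)
    {z : ℂ | ∃ r > 0, ∀ᵐ w : ℂ, w ∈ Metric.ball z r → w ∈ A}
    {z : ℂ | ∃ r > 0, ∀ᵐ w : ℂ, w ∈ Metric.ball z r → w ∈ Aᶜ} (hop A) (hop Aᶜ)
    (by
      intro z hz
      obtain ⟨r, hr, _, h | h⟩ := hloc z hz
      · exact Or.inl ⟨r, hr, h⟩
      · exact Or.inr ⟨r, hr, h⟩)
    (by
      rw [eq_empty_iff_forall_notMem]
      rintro z ⟨_, ⟨r, hr, h⟩, ⟨r', hr', h'⟩⟩
      have h2 : volume (Metric.ball z (min r r')) = 0 := by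
        refine measure_mono_null ?_ (h.and h')
        intro w hw hn
        have h3 := hn.1 (Metric.ball_subset_ball (min_le_left _ _) hw)
        have h4 := hn.2 (Metric.ball_subset_ball (min_le_right _ _) hw)
        exact h4 h3
      exact (Metric.measure_ball_pos volume z (lt_min hr hr')).ne' h2)
  rcases h1 with h1 | h1
  · right
    exact hnull A h1
  · left
    have := hnull Aᶜ h1
    rwa [sdiff_compl] at this

theorem dir_main (hB : S_Basic) (hH : S_Hull) : S_Dir := by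
  intro n p hp S hS hinv hnull
  have hreg : region p = reg p := (hH n p hp).2
  obtain ⟨_, hop, hconv, _⟩ := hB n p hp
  set Ω : Set ℂ := reg p with hΩ
  -- the bad set in the triple product
  have hmeas : ∀ η : ℝ, MeasurableSet {q : ℝ × (ℂ × ℝ) | q.1 ∈ Ioo 0 η ∧
      (q.2.1 ∈ OO Ω η ∧ (q.2.2 ∈ Ico 0 (2 * π) ∧
      ¬ (q.2 ∈ S ↔ (q.2.1 + q.1 • (I * dir q.2.2), q.2.2) ∈ S)))} := by
    intro η
    have m1 : MeasurableSet {q : ℝ × (ℂ × ℝ) | q.1 ∈ Ioo 0 η} :=
      measurable_fst measurableSet_Ioo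
    have m2 : MeasurableSet {q : ℝ × (ℂ × ℝ) | q.2.1 ∈ OO Ω η} :=
      (measurable_fst.comp measurable_snd) (isOpen_OO Ω η).measurableSet
    have m3 : MeasurableSet {q : ℝ × (ℂ × ℝ) | q.2.2 ∈ Ico 0 (2 * π)} :=
      (measurable_snd.comp measurable_snd) measurableSet_Ico
    have m4 : MeasurableSet {q : ℝ × (ℂ × ℝ) | q.2 ∈ S} := measurable_snd hS
    have m5 : MeasurableSet {q : ℝ × (ℂ × ℝ) |
        (q.2.1 + q.1 • (I * dir q.2.2), q.2.2) ∈ S} := by
      have : Measurable (fun q : ℝ × (ℂ × ℝ) =>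
          ((q.2.1 + q.1 • (I * dir q.2.2), q.2.2) : ℂ × ℝ)) := by
        apply Continuous.measurable
        have := continuous_dir
        fun_prop
      exact this hS
    exact m1.inter (m2.inter (m3.inter (m4.iff m5).compl))
  have hz : ∀ η : ℝ, 0 < η → ∀ᵐ q : ℝ × (ℂ × ℝ), ¬ (q.1 ∈ Ioo 0 η ∧
      (q.2.1 ∈ OO Ω η ∧ (q.2.2 ∈ Ico 0 (2 * π) ∧
      ¬ (q.2 ∈ S ↔ (q.2.1 + q.1 • (I * dir q.2.2), q.2.2) ∈ S)))) := by
    intro η hη
    rw [ae_iff]
    simp only [not_not]
    rw [Measure.volume_eq_prod, Measure.measure_prod_null (hmeas η)]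
    refine Eventually.of_forall fun δ => ?_
    simp only [Pi.zero_apply]
    by_cases hδ : δ ∈ Ioo 0 η
    · refine measure_mono_null ?_ (hnull η δ hδ.1 hδ.2)
      rintro ⟨z, θ⟩ ⟨_, h2, h3, h4⟩
      have h5 := OO_sub hη.le h2
      refine ⟨⟨?_, h3⟩, h5, h4⟩
      show z ∈ region p
      rw [hreg]
      exact h5 (Metric.mem_closedBall_self (by positivity))
    · convert measure_empty (μ := (volume : Measure (ℂ × ℝ)))
      rw [eq_empty_iff_forall_notMem]
      rintro x ⟨h1, _⟩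
      exact hδ h1
  -- swap
  have hz2 : ∀ η : ℝ, 0 < η → ∀ᵐ θ : ℝ, ∀ᵐ z : ℂ, ∀ᵐ δ : ℝ, ¬ (δ ∈ Ioo 0 η ∧
      (z ∈ OO Ω η ∧ (θ ∈ Ico 0 (2 * π) ∧
      ¬ ((z, θ) ∈ S ↔ (z + δ • (I * dir θ), θ) ∈ S)))) := by
    intro η hη
    have h1 := hz η hη
    have hsw : Measure.QuasiMeasurePreserving (Prod.swap : (ℂ × ℝ) × ℝ → ℝ × (ℂ × ℝ)) :=
      (Measure.measurePreserving_swap (μ := (volume : Measure (ℂ × ℝ)))
        (ν := (volume : Measure ℝ))).quasiMeasurePreserving
    have h2 := hsw.ae h1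
    have h3 := Measure.ae_ae_of_ae_prod h2
    have hsw2 : Measure.QuasiMeasurePreserving (Prod.swap : ℝ × ℂ → ℂ × ℝ) :=
      (Measure.measurePreserving_swap (μ := (volume : Measure ℝ))
        (ν := (volume : Measure ℂ))).quasiMeasurePreserving
    have h4 := hsw2.ae h3
    have h5 := Measure.ae_ae_of_ae_prod h4
    exact h5
  have hz3 : ∀ᵐ θ : ℝ, ∀ k : ℕ, ∀ᵐ z : ℂ, ∀ᵐ δ : ℝ, ¬ (δ ∈ Ioo 0 (1 / ((k : ℝ) + 1)) ∧
      (z ∈ OO Ω (1 / ((k : ℝ) + 1)) ∧ (θ ∈ Ico 0 (2 * π) ∧
      ¬ ((z, θ) ∈ S ↔ (z + δ • (I * dir θ), θ) ∈ S)))) := by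
    rw [ae_all_iff]
    intro k
    exact hz2 _ (by positivity)
  -- sections are null or conull
  have hsec : ∀ᵐ θ : ℝ, θ ∈ Ico 0 (2 * π) →
      volume (Ω ∩ {z | (z, θ) ∈ S}) = 0 ∨ volume (Ω \ {z | (z, θ) ∈ S}) = 0 := by
    filter_upwards [hz3] with θ hθ hθI
    apply global_const Ω _ hconv.isPreconnected
    apply local_const Ω _ θ hop
    · intro z s h1 h2
      exact hinv.free z θ s (by rw [hreg]; exact h1) (by rw [hreg]; exact h2)
    · intro k
      filter_upwards [hθ k] with z hz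
      filter_upwards [hz] with δ hδ h1 h2 h3
      by_contra hn
      exact hδ ⟨⟨h2, h3⟩, h1, hθI, hn⟩
  -- the set of directions
  have hm0 : MeasurableSet ((fun x : ℂ × ℝ => x.1) ⁻¹' Ω ∩ S) :=
    (measurable_fst hop.measurableSet).inter hS
  set Θ : Set ℝ := {θ | volume ((fun z : ℂ => (z, θ)) ⁻¹' ((fun x : ℂ × ℝ => x.1) ⁻¹' Ω ∩ S)) ≠ 0}
    with hΘ
  have hpre : ∀ θ : ℝ, (fun z : ℂ => (z, θ)) ⁻¹' ((fun x : ℂ × ℝ => x.1) ⁻¹' Ω ∩ S) =
      Ω ∩ {z | (z, θ) ∈ S} := fun θ => rfl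
  have hΘm : MeasurableSet Θ := by
    have h1 : Measurable (fun θ : ℝ => volume ((fun z : ℂ => (z, θ)) ⁻¹'
        ((fun x : ℂ × ℝ => x.1) ⁻¹' Ω ∩ S))) :=
      measurable_measure_prodMk_right hm0
    exact (h1 (measurableSet_singleton 0)).compl
  refine ⟨Θ, hΘm, ?_, ?_⟩
  · intro θ
    rw [hΘ]
    simp only [mem_ofPred_eq]
    rw [hpre, hpre]
    have : {z : ℂ | (z, θ + 2 * π) ∈ S} = {z | (z, θ) ∈ S} := by
      ext z
      exact hinv.periodic z θ
    rw [this]
  · -- the exceptional set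
    have hE : MeasurableSet {x : ℂ × ℝ | x ∈ phase p ∧ ¬ (x ∈ S ↔ x.2 ∈ Θ)} := by
      have m1 : MeasurableSet (phase p) := by
        unfold phase
        rw [hreg]
        exact hop.measurableSet.prod measurableSet_Ico
      have m2 : MeasurableSet {x : ℂ × ℝ | x.2 ∈ Θ} := measurable_snd hΘm
      exact m1.inter (hS.iff m2).compl
    have hsw : MeasurePreserving (Prod.swap : ℝ × ℂ → ℂ × ℝ) :=
      Measure.measurePreserving_swap (μ := (volume : Measure ℝ)) (ν := (volume : Measure ℂ))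
    rw [← hsw.measure_preimage hE.nullMeasurableSet, Measure.volume_eq_prod,
      Measure.measure_prod_null (hsw.measurable hE)]
    filter_upwards [hsec] with θ hθ
    simp only [Pi.zero_apply]
    by_cases hθI : θ ∈ Ico 0 (2 * π)
    · rcases hθ hθI with h1 | h1
      · have h2 : θ ∉ Θ := by
          rw [hΘ]
          simp only [mem_ofPred_eq, not_not]
          exact h1
        refine measure_mono_null ?_ h1
        rintro z ⟨⟨hz1, _⟩, hz2⟩
        refine ⟨?_, ?_⟩
        · have : z ∈ region p := hz1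
          rw [hreg] at this
          exact this
        · by_contra hn
          apply hz2
          exact iff_of_false hn h2
      · by_cases h2 : θ ∈ Θ
        · refine measure_mono_null ?_ h1
          rintro z ⟨⟨hz1, _⟩, hz2⟩
          refine ⟨?_, ?_⟩
          · have : z ∈ region p := hz1
            rw [hreg] at this
            exact this
          · intro hn
            apply hz2
            exact iff_of_true hn h2
        · have h3 : volume (Ω ∩ {z | (z, θ) ∈ S}) = 0 := by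
            rw [hΘ] at h2
            simp only [mem_ofPred_eq, not_not] at h2
            exact h2
          refine measure_mono_null ?_ h3
          rintro z ⟨⟨hz1, _⟩, hz2⟩
          refine ⟨?_, ?_⟩
          · have : z ∈ region p := hz1
            rw [hreg] at this
            exact this
          · by_contra hn
            apply hz2
            exact iff_of_false hn h2
    · convert measure_empty (μ := (volume : Measure ℂ))
      rw [eq_empty_iff_forall_notMem]
      rintro z ⟨⟨_, h2⟩, _⟩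
      exact hθI h2

end Pool.Agent.W803.BBD
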